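import Mathlib
import Pool.Agent.H7.BesDefs
import Pool.Agent.H7.BesF

set_option autoImplicit false

namespace Pool.Agent.Results.MP_6b55e5_an.NoThinStrips

open Pool.Agent.H7.Bes

/-- There is a Besicovitch set without property (S).  Moreover there is one `ε > 0` such that every
Besicovitch set is contained in a Besicovitch set all of whose strip coverings have total width at
least `ε`. -/
theorem result :
    (∃ E : Set ℂ, IsBesicovitch E ∧ (∃ ε : ℝ, 0 < ε ∧ StripBound E ε) ∧ ¬ PropS E) ∧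
    (∃ ε : ℝ, 0 < ε ∧ ∀ E : Set ℂ, IsBesicovitch E →
      ∃ E' : Set ℂ, E ⊆ E' ∧ IsBesicovitch E' ∧ StripBound E' ε) := by
  obtain ⟨ε, hε, N, _, _, _, h⟩ := Pool.Agent.H7.Bes.cond
  constructor
  · obtain ⟨h1, h2, h3⟩ := h E0 E0_bes
    exact ⟨E0 ∪ N, h1, ⟨ε, hε, h2⟩, h3⟩
  · refine ⟨ε, hε, fun E hE => ⟨E ∪ N, Set.subset_union_left, (h E hE).1, (h E hE).2.1⟩⟩

end Pool.Agent.Results.MP_6b55e5_an.NoThinStrips
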